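import Mathlib

/-!
# Infinite monochromatic sumsets with a dense summand

Let `H` be a growth function such that `H N / N` does not stay away from zero. The sets `D` for
which the ratio `D(N) / H(N)` is bounded along a suitable sequence of `N` form a proper ideal, so
there is an ultrafilter `p` none of whose members is in the ideal. In every finite colouring some
colour class `A` belongs to `p + p`, and a chunk construction gives infinite sets `B, C` with
`B + C ⊆ A` and `H(N) ≤ B(N)` for infinitely many `N`.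
-/

set_option autoImplicit false

namespace Pool.Agent.Results.MP_870dc7_co.DenseSumset

open Filter

/-- The counting function `D(N) = |D ∩ {1, ..., N}|`. -/
noncomputable def cnt (D : Set ℕ) (N : ℕ) : ℕ := (D ∩ Set.Icc 1 N).ncard

theorem cnt_mono {D E : Set ℕ} (h : D ⊆ E) (N : ℕ) : cnt D N ≤ cnt E N :=
  Set.ncard_le_ncard (Set.inter_subset_inter_left _ h) ((Set.finite_Icc 1 N).inter_of_right _)

theorem cnt_union (D E : Set ℕ) (N : ℕ) : cnt (D ∪ E) N ≤ cnt D N + cnt E N := by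
  unfold cnt
  rw [Set.union_inter_distrib_right]
  exact Set.ncard_union_le _ _

theorem cnt_univ (N : ℕ) : cnt Set.univ N = N := by
  unfold cnt
  rw [Set.univ_inter, ← Finset.coe_Icc, Set.ncard_coe_finset, Nat.card_Icc]
  omega

theorem cnt_le_of_finite {D : Set ℕ} (h : D.Finite) (N : ℕ) : cnt D N ≤ D.ncard :=
  Set.ncard_le_ncard Set.inter_subset_left h

/-- The ideal of sets that are small along the sequence `n`. -/
def Small (H : ℕ → ℕ) (n : ℕ → ℕ) (D : Set ℕ) : Prop :=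
  ∃ K : ℕ, ∀ᶠ k in atTop, cnt D (n k) ≤ K * H (n k)

theorem exists_ultrafilter (H : ℕ → ℕ) (n : ℕ → ℕ) (hn2 : ∀ k, k * H (n k) < n k) :
    ∃ p : Ultrafilter ℕ, ∀ D ∈ p, ¬ Small H n D := by
  have hemp : Small H n ∅ := ⟨0, Eventually.of_forall fun k => by simp [cnt]⟩
  have hmono : ∀ t, Small H n t → ∀ s ⊆ t, Small H n s := by
    rintro t ⟨K, hK⟩ s hs
    exact ⟨K, hK.mono fun k hk => (cnt_mono hs _).trans hk⟩
  have hunion : ∀ s, Small H n s → ∀ t, Small H n t → Small H n (s ∪ t) := by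
    rintro s ⟨K, hK⟩ t ⟨L, hL⟩
    refine ⟨K + L, ?_⟩
    filter_upwards [hK, hL] with k h1 h2
    calc cnt (s ∪ t) (n k) ≤ cnt s (n k) + cnt t (n k) := cnt_union _ _ _
      _ ≤ (K + L) * H (n k) := by rw [add_mul]; exact add_le_add h1 h2
  have huniv : ¬ Small H n Set.univ := by
    rintro ⟨K, hK⟩
    obtain ⟨k, hk1, hk2⟩ := (hK.and (eventually_ge_atTop K)).exists
    rw [cnt_univ] at hk1
    have h1 := hn2 k
    have h2 : K * H (n k) ≤ k * H (n k) := Nat.mul_le_mul_right _ hk2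
    omega
  let f : Filter ℕ := Filter.comk (Small H n) hemp hmono hunion
  have hf : f.NeBot := by
    rw [neBot_iff]
    intro hbot
    have h1 : (∅ : Set ℕ) ∈ f := by rw [hbot]; exact mem_bot
    have h2 : Small H n (∅ : Set ℕ)ᶜ := h1
    rw [Set.compl_empty] at h2
    exact huniv h2
  refine ⟨Ultrafilter.of f, fun D hD hsm => ?_⟩
  have h1 : Dᶜ ∈ f := by
    show Small H n Dᶜᶜ
    rwa [compl_compl]
  have h2 : Dᶜ ∈ Ultrafilter.of f := Ultrafilter.of_le f h1
  exact (Ultrafilter.compl_mem_iff_notMem.1 h2) hD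

theorem exists_colour {r : ℕ} (p : Ultrafilter ℕ) (f : ℕ → Fin r) :
    ∃ i, {x | f x = i} ∈ p := by
  obtain ⟨i, hi⟩ := Ultrafilter.eq_pure_of_finite (p.map f)
  refine ⟨i, ?_⟩
  have h : ({i} : Set (Fin r)) ∈ p.map f := by
    rw [hi]
    exact Ultrafilter.mem_pure.2 rfl
  exact h

theorem sqrt_growth : Monotone Nat.sqrt ∧ Tendsto Nat.sqrt atTop atTop ∧
    ∀ ε : ℝ, 0 < ε → ∃ᶠ N : ℕ in atTop, (Nat.sqrt N : ℝ) < ε * N := by
  refine ⟨fun a b h => Nat.sqrt_le_sqrt h, ?_, ?_⟩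
  · refine tendsto_atTop_atTop.2 fun b => ⟨b * b, fun a ha => ?_⟩
    exact Nat.le_sqrt.2 ha
  · intro ε hε
    rw [frequently_atTop]
    intro a
    obtain ⟨k, hk⟩ := exists_nat_gt (max (a : ℝ) (1 / ε))
    have hk1 : a < k := by exact_mod_cast (le_max_left _ _).trans_lt hk
    have hk2 : 1 / ε < k := (le_max_right _ _).trans_lt hk
    have hk0 : 0 < k := by omega
    refine ⟨k * k, by nlinarith, ?_⟩
    rw [Nat.sqrt_eq]
    rw [div_lt_iff₀ hε] at hk2
    have hk3 : (0 : ℝ) < k := by exact_mod_cast hk0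
    push_cast
    nlinarith

/-- **Theorem.** Let `H` be non-decreasing and unbounded, and suppose that `H N ≥ ε N` fails for
arbitrarily large `N`, for each `ε > 0` (for instance `H N = ⌊√N⌋`, or any `H` with
`H N / N → 0`). Then for every colouring of the natural numbers with finitely many colours there
are infinite sets `B, C` of positive integers such that `B + C` is monochromatic and
`H N ≤ |B ∩ {1, ..., N}|` for infinitely many `N`. The second part states that `H = Nat.sqrt` is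
such a function. -/
theorem result :
    (∀ H : ℕ → ℕ, Monotone H → Tendsto H atTop atTop →
      (∀ ε : ℝ, 0 < ε → ∃ᶠ N : ℕ in atTop, (H N : ℝ) < ε * N) →
      ∀ (r : ℕ) (χ : ℕ → Fin r), ∃ (B C : Set ℕ) (i : Fin r),
        B.Infinite ∧ C.Infinite ∧ 0 ∉ B ∧ 0 ∉ C ∧ (∀ b ∈ B, ∀ c ∈ C, χ (b + c) = i) ∧
        ∃ᶠ N in atTop, H N ≤ cnt B N) ∧
    (Monotone Nat.sqrt ∧ Tendsto Nat.sqrt atTop atTop ∧
      ∀ ε : ℝ, 0 < ε → ∃ᶠ N : ℕ in atTop, (Nat.sqrt N : ℝ) < ε * N) := by
  refine ⟨?_, sqrt_growth⟩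
  classical
  intro H hmonoH hH hsub r χ
  -- the sequence n
  have hex : ∀ k : ℕ, ∃ N, k ≤ N ∧ k * H N < N := by
    intro k
    have h := hsub (1 / (k + 1)) (by positivity)
    obtain ⟨N, hN1, hN2⟩ := (h.and_eventually (eventually_ge_atTop (max k 1))).exists
    refine ⟨N, (le_max_left _ _).trans hN2, ?_⟩
    have hNpos : 0 < N := lt_of_lt_of_le Nat.one_pos ((le_max_right _ _).trans hN2)
    have h3 : ((k : ℝ) + 1) * H N < N := by
      rw [one_div, inv_mul_eq_div, lt_div_iff₀ (by positivity)] at hN1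
      linarith
    have h4 : (k + 1) * H N < N := by exact_mod_cast h3
    nlinarith
  choose n hn1 hn2 using hex
  have hn : Tendsto n atTop atTop := tendsto_atTop_mono hn1 tendsto_id
  obtain ⟨p, hp⟩ := exists_ultrafilter H n hn2
  have hfinsmall : ∀ D : Set ℕ, D.Finite → Small H n D := by
    intro D hD
    refine ⟨D.ncard, ?_⟩
    filter_upwards [(hH.comp hn).eventually_ge_atTop 1] with k hk
    have hk' : 1 ≤ H (n k) := hk
    calc cnt D (n k) ≤ D.ncard * 1 := by rw [mul_one]; exact cnt_le_of_finite hD _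
      _ ≤ D.ncard * H (n k) := Nat.mul_le_mul_left _ hk'
  have hinf : ∀ D ∈ p, D.Infinite := fun D hD hfin => hp D hD (hfinsmall D hfin)
  -- colours
  have hg : ∀ m, ∃ i, {x | χ (m + x) = i} ∈ p := fun m => exists_colour p fun x => χ (m + x)
  choose g hg using hg
  obtain ⟨i, hi⟩ := exists_colour p g
  -- valid states
  let Inv : Finset ℕ × Finset ℕ → Prop := fun s =>
    (∀ b ∈ s.1, g b = i ∧ 0 < b) ∧ (∀ c ∈ s.2, g c = i ∧ 0 < c) ∧
      ∀ b ∈ s.1, ∀ c ∈ s.2, χ (b + c) = i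
  have hpos : {x : ℕ | 0 < x} ∈ p := by
    by_contra h
    have h1 := Ultrafilter.compl_mem_iff_notMem.2 h
    refine hinf _ h1 ((Set.finite_Iic 0).subset ?_)
    intro x hx
    have hx' : ¬ (0 < x) := hx
    exact Set.mem_Iic.2 (by omega)
  have hcap : ∀ F : Finset ℕ, (∀ x ∈ F, g x = i) → {y : ℕ | ∀ x ∈ F, χ (x + y) = i} ∈ p := by
    intro F hF
    have h1 : (⋂ x ∈ F, {y : ℕ | χ (x + y) = i}) ∈ (p : Filter ℕ) := by
      rw [Filter.biInter_finset_mem]
      intro x hx
      have := hg x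
      rw [hF x hx] at this
      exact this
    refine Filter.mem_of_superset h1 ?_
    intro y hy
    simp only [Set.mem_iInter] at hy
    exact hy
  have hstep : ∀ (j : ℕ) (s : {s : Finset ℕ × Finset ℕ // Inv s}),
      ∃ s' : {s : Finset ℕ × Finset ℕ // Inv s}, s.1.1 ⊆ s'.1.1 ∧ s.1.2 ⊆ s'.1.2 ∧
        (∃ N, j < N ∧ H N ≤ cnt (s'.1.1 : Set ℕ) N) ∧ ∃ c ∈ s'.1.2, j < c := by
    rintro j ⟨⟨B, C⟩, hB, hC, hBC⟩
    let D : Set ℕ := {y | (g y = i ∧ 0 < y) ∧ ∀ x ∈ C, χ (x + y) = i}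
    have hD : D ∈ p := Filter.inter_mem (Filter.inter_mem hi hpos) (hcap C fun c hc => (hC c hc).1)
    have hDs := hp D hD
    have hfreq : ∃ᶠ k in atTop, H (n k) < cnt D (n k) := by
      intro hev
      refine hDs ⟨1, hev.mono fun k hk => ?_⟩
      rw [one_mul]
      exact not_lt.1 hk
    obtain ⟨k, hk1, hk2⟩ := (hfreq.and_eventually (hn.eventually_gt_atTop j)).exists
    let B' : Finset ℕ := B ∪ (Finset.Icc 1 (n k)).filter fun y => y ∈ D
    have hB' : ∀ b ∈ B', (g b = i ∧ 0 < b) ∧ ∀ x ∈ C, χ (x + b) = i := by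
      intro b hb
      rcases Finset.mem_union.1 hb with hb | hb
      · refine ⟨hB b hb, fun x hx => ?_⟩
        rw [add_comm]
        exact hBC b hb x hx
      · exact (Finset.mem_filter.1 hb).2
    let E : Set ℕ := {y | (g y = i ∧ 0 < y) ∧ ∀ x ∈ B', χ (x + y) = i}
    have hE : E ∈ p := Filter.inter_mem (Filter.inter_mem hi hpos) (hcap B' fun c hc => (hB' c hc).1.1)
    obtain ⟨c, hc, hjc⟩ := (hinf E hE).exists_gt j
    refine ⟨⟨(B', insert c C), fun b hb => (hB' b hb).1, ?_, ?_⟩, ?_, ?_, ?_, ?_⟩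
    · intro x hx
      rcases Finset.mem_insert.1 hx with rfl | hx
      · exact hc.1
      · exact hC x hx
    · intro b hb x hx
      rcases Finset.mem_insert.1 hx with rfl | hx
      · exact hc.2 b hb
      · rw [add_comm]
        exact (hB' b hb).2 x hx
    · exact Finset.subset_union_left
    · exact Finset.subset_insert _ _
    · refine ⟨n k, hk2, ?_⟩
      refine hk1.le.trans ?_
      unfold cnt
      refine Set.ncard_le_ncard ?_ ((Set.finite_Icc 1 (n k)).inter_of_right _)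
      rintro y ⟨hy1, hy2⟩
      refine ⟨?_, hy2⟩
      rw [Finset.mem_coe]
      exact Finset.mem_union_right _ (Finset.mem_filter.2 ⟨Finset.mem_Icc.2 hy2, hy1⟩)
    · exact ⟨c, Finset.mem_insert_self _ _, hjc⟩
  choose f hf1 hf2 hf3 hf4 using hstep
  have hinit : Inv (∅, ∅) := by
    refine ⟨?_, ?_, ?_⟩ <;> simp
  let seq : ℕ → {s : Finset ℕ × Finset ℕ // Inv s} := fun j =>
    Nat.rec ⟨(∅, ∅), hinit⟩ (fun j s => f j s) j
  have hseq : ∀ j, seq (j + 1) = f j (seq j) := fun j => rfl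
  have hm1 : ∀ a b, a ≤ b → (seq a).1.1 ⊆ (seq b).1.1 := by
    intro a b hab
    induction hab with
    | refl => exact Finset.Subset.refl _
    | step _ ih =>
      refine ih.trans ?_
      rw [hseq]
      exact hf1 _ _
  have hm2 : ∀ a b, a ≤ b → (seq a).1.2 ⊆ (seq b).1.2 := by
    intro a b hab
    induction hab with
    | refl => exact Finset.Subset.refl _
    | step _ ih =>
      refine ih.trans ?_
      rw [hseq]
      exact hf2 _ _
  let B : Set ℕ := {b | ∃ j, b ∈ (seq j).1.1}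
  let C : Set ℕ := {c | ∃ j, c ∈ (seq j).1.2}
  have hfreqB : ∃ᶠ N in atTop, H N ≤ cnt B N := by
    rw [frequently_atTop]
    intro a
    obtain ⟨N, hN1, hN2⟩ := hf3 a (seq a)
    refine ⟨N, hN1.le, hN2.trans (cnt_mono ?_ N)⟩
    intro b hb
    refine ⟨a + 1, ?_⟩
    rw [hseq]
    exact Finset.mem_coe.1 hb
  refine ⟨B, C, i, ?_, ?_, ?_, ?_, ?_, hfreqB⟩
  · intro hfin
    obtain ⟨N, hN1, hN2⟩ := (hfreqB.and_eventually (hH.eventually_gt_atTop B.ncard)).exists
    have := cnt_le_of_finite hfin N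
    omega
  · intro hfin
    obtain ⟨M, hM⟩ := hfin.bddAbove
    obtain ⟨c, hc1, hc2⟩ := hf4 M (seq M)
    have : c ∈ C := ⟨M + 1, by rw [hseq]; exact hc1⟩
    have := hM this
    omega
  · rintro ⟨j, hj⟩
    exact lt_irrefl 0 ((seq j).2.1 0 hj).2
  · rintro ⟨j, hj⟩
    exact lt_irrefl 0 ((seq j).2.2.1 0 hj).2
  · rintro b ⟨j, hj⟩ c ⟨l, hl⟩
    exact (seq (max j l)).2.2.2 b (hm1 _ _ (le_max_left _ _) hj) c (hm2 _ _ (le_max_right _ _) hl)

end Pool.Agent.Results.MP_870dc7_co.DenseSumset
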